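import Pool.Agent.H73.GWQ.Stmts3

/-! Project GWQ, row KER: the level quotient of a graph that is quasi-isometric to a tree. -/

set_option autoImplicit false

open Classical

universe u v

namespace GWQ

namespace KerAux

variable {V : Type u} (X : SimpleGraph V) (o : V)

/-- same level and joined by a walk which does not go below this level -/
def rel (a b : V) : Prop :=
  X.dist o a = X.dist o b ∧ ∃ p : X.Walk a b, ∀ w ∈ p.support, X.dist o a ≤ X.dist o w

theorem rel_equiv : Equivalence (rel X o) := by
  refine ⟨fun a => ⟨rfl, SimpleGraph.Walk.nil, ?_⟩, ?_, ?_⟩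
  · intro w hw
    rw [SimpleGraph.Walk.support_nil, List.mem_singleton] at hw
    rw [hw]
  · rintro a b ⟨h, p, hp⟩
    refine ⟨h.symm, p.reverse, fun w hw => ?_⟩
    rw [SimpleGraph.Walk.support_reverse, List.mem_reverse] at hw
    rw [← h]
    exact hp w hw
  · rintro a b c ⟨h, p, hp⟩ ⟨h', p', hp'⟩
    refine ⟨h.trans h', p.append p', fun w hw => ?_⟩
    rw [SimpleGraph.Walk.mem_support_append_iff] at hw
    rcases hw with hw | hw
    · exact hp w hw
    · rw [h]
      exact hp' w hw

/-- the classes -/
def st : Setoid V := ⟨rel X o, rel_equiv X o⟩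

/-- a neighbour of smaller level -/
noncomputable def nb (a : V) : V :=
  if h : ∃ b, X.Adj a b ∧ X.dist o b + 1 = X.dist o a then h.choose else a

variable {X} (hX : X.Connected)

include hX in
theorem nb_ex {a : V} (ha : 0 < X.dist o a) : ∃ b, X.Adj a b ∧ X.dist o b + 1 = X.dist o a := by
  obtain ⟨p, hp⟩ := hX.exists_walk_length_eq_dist a o
  cases p with
  | nil =>
    rw [SimpleGraph.dist_self] at ha
    exact absurd ha (lt_irrefl 0)
  | cons hadj q =>
    rename_i b
    refine ⟨b, hadj, ?_⟩
    rw [SimpleGraph.Walk.length_cons] at hp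
    have h1 : X.dist b o ≤ q.length := SimpleGraph.dist_le q
    have h2 : X.dist o a ≤ X.dist o b + X.dist b a := hX.dist_triangle
    have h3 : X.dist b a = 1 := SimpleGraph.dist_eq_one_iff_adj.2 hadj.symm
    rw [SimpleGraph.dist_comm] at h1
    rw [SimpleGraph.dist_comm] at hp
    omega

include hX in
theorem nb_spec {a : V} (ha : 0 < X.dist o a) :
    X.Adj a (nb X o a) ∧ X.dist o (nb X o a) + 1 = X.dist o a := by
  have h := nb_ex o hX ha
  unfold nb
  rw [dif_pos h]
  exact h.choose_spec

theorem nb_zero {a : V} (ha : X.dist o a = 0) : nb X o a = a := by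
  unfold nb
  rw [dif_neg]
  rintro ⟨b, -, hb⟩
  omega

include hX in
theorem nb_dist (a : V) : X.dist a (nb X o a) ≤ 1 := by
  rcases Nat.eq_zero_or_pos (X.dist o a) with h | h
  · rw [nb_zero o h, SimpleGraph.dist_self]
    exact Nat.zero_le 1
  · exact (SimpleGraph.dist_eq_one_iff_adj.2 (nb_spec o hX h).1).le

include hX in
theorem nb_iter (i : ℕ) : ∀ a : V, X.dist a ((nb X o)^[i] a) ≤ i := by
  induction i with
  | zero =>
    intro a
    simp
  | succ i ih =>
    intro a
    rw [Function.iterate_succ_apply]
    have h1 := ih (nb X o a)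
    have h2 := nb_dist o hX a
    have h3 : X.dist a ((nb X o)^[i] (nb X o a)) ≤
        X.dist a (nb X o a) + X.dist (nb X o a) ((nb X o)^[i] (nb X o a)) := hX.dist_triangle
    omega

include hX in
theorem nb_rel {a b : V} (h : rel X o a b) : rel X o (nb X o a) (nb X o b) := by
  obtain ⟨hl, p, hp⟩ := h
  rcases Nat.eq_zero_or_pos (X.dist o a) with h0 | h0
  · rw [nb_zero o h0, nb_zero o (hl ▸ h0)]
    exact ⟨hl, p, hp⟩
  · have ha := nb_spec o hX h0
    have hb := nb_spec o hX (hl ▸ h0 : 0 < X.dist o b)
    refine ⟨by omega, SimpleGraph.Walk.cons ha.1.symm (p.append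
      (SimpleGraph.Walk.cons hb.1 SimpleGraph.Walk.nil)), fun w hw => ?_⟩
    rw [SimpleGraph.Walk.support_cons, List.mem_cons,
      SimpleGraph.Walk.mem_support_append_iff] at hw
    rcases hw with hw | hw | hw
    · rw [hw]
    · have := hp w hw
      omega
    · rw [SimpleGraph.Walk.support_cons, List.mem_cons, SimpleGraph.Walk.support_nil,
        List.mem_singleton] at hw
      rcases hw with hw | hw
      · rw [hw]; omega
      · rw [hw]; omega

end KerAux

open KerAux in
theorem KER {V : Type u} {W : Type v} (hPTT : ∀ W₂ : Type u, PTTStmt W₂)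
    (hPTD : ∀ W₂ : Type u, PTDStmt W₂) (hSTR : STRStmt V W) : KERStmt V W := by
  intro X T hX hT F L hF1 hF2
  obtain ⟨o⟩ := hX.nonempty
  let S : Setoid V := st X o
  let lv : Quotient S → ℕ := Quotient.lift (fun a => X.dist o a) (fun a b h => h.1)
  let par : Quotient S → Quotient S := Quotient.lift (fun a => (⟦nb X o a⟧ : Quotient S))
    (fun a b h => Quotient.sound (nb_rel o hX h))
  let F₂ : V → Quotient S := fun a => ⟦a⟧
  have hlv : ∀ a : V, lv (F₂ a) = X.dist o a := fun a => rfl
  have hpar : ∀ a : V, par (F₂ a) = F₂ (nb X o a) := fun a => rfl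
  have hA : ∀ w : Quotient S, lv w = 0 → w = F₂ o := by
    intro w
    induction w using Quotient.inductionOn with
    | h a =>
      intro h
      have h1 : X.dist o a = 0 := h
      have h2 : o = a := (hX.dist_eq_zero_iff).1 h1
      rw [← h2]
  have hB : ∀ w : Quotient S, 0 < lv w → lv (par w) + 1 = lv w := by
    intro w
    induction w using Quotient.inductionOn with
    | h a =>
      intro h
      exact (nb_spec o hX (show 0 < X.dist o a from h)).2
  have hT2 : (PTG lv par).IsTree := hPTT (Quotient S) lv par (F₂ o) hA hB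
  have hiter : ∀ (i : ℕ) (a : V), par^[i] (F₂ a) = F₂ ((nb X o)^[i] a) := by
    intro i
    induction i with
    | zero => intro a; rfl
    | succ i ih =>
      intro a
      rw [Function.iterate_succ_apply, Function.iterate_succ_apply, hpar, ih]
  refine ⟨Quotient S, PTG lv par, F₂, L * (12 * L + 4), hT2, ?_, ?_⟩
  · intro a b
    obtain ⟨i, j, -, -, hij, hd⟩ := hPTD (Quotient S) lv par (F₂ o) hA hB (F₂ a) (F₂ b)
    rw [hiter, hiter] at hij
    obtain ⟨hl, p, hp⟩ : rel X o ((nb X o)^[i] a) ((nb X o)^[j] b) := Quotient.exact hij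
    have h1 := hSTR X T hX hT F L hF1 hF2 o _ _ p hp hl
    have h2 := nb_iter o hX i a
    have h3 := nb_iter o hX j b
    have h4 : X.dist a b ≤ X.dist a ((nb X o)^[i] a) + X.dist ((nb X o)^[i] a) b :=
      hX.dist_triangle
    have h5 : X.dist ((nb X o)^[i] a) b ≤ X.dist ((nb X o)^[i] a) ((nb X o)^[j] b) +
        X.dist ((nb X o)^[j] b) b := hX.dist_triangle
    rw [SimpleGraph.dist_comm (u := (nb X o)^[j] b) (v := b)] at h5
    rw [hd]
    omega
  · -- one step
    have hstep1 : ∀ a b : V, X.Adj a b → X.dist o b = X.dist o a + 1 →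
        (PTG lv par).Adj (F₂ b) (F₂ a) := by
      intro a b hab hl
      have h0 : 0 < X.dist o b := by omega
      have hb := nb_spec o hX h0
      have hrel : rel X o (nb X o b) a := by
        refine ⟨by omega, SimpleGraph.Walk.cons hb.1.symm
          (SimpleGraph.Walk.cons hab.symm SimpleGraph.Walk.nil), fun w hw => ?_⟩
        rw [SimpleGraph.Walk.support_cons, SimpleGraph.Walk.support_cons,
          SimpleGraph.Walk.support_nil, List.mem_cons, List.mem_cons, List.mem_singleton] at hw
        rcases hw with hw | hw | hw <;> rw [hw] <;> omega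
      have hp : par (F₂ b) = F₂ a := by
        rw [hpar]
        exact Quotient.sound hrel
      unfold PTG
      rw [SimpleGraph.fromRel_adj]
      refine ⟨?_, Or.inl ⟨by rw [hlv]; exact h0, hp⟩⟩
      intro h
      have h1 : lv (F₂ b) = lv (F₂ a) := by rw [h]
      rw [hlv, hlv] at h1
      omega
    have hstep : ∀ a b : V, X.Adj a b → (PTG lv par).dist (F₂ a) (F₂ b) ≤ 1 := by
      intro a b hab
      have h1 : X.dist a b = 1 := SimpleGraph.dist_eq_one_iff_adj.2 hab
      have h2 : X.dist o b ≤ X.dist o a + X.dist a b := hX.dist_triangle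
      have h3 : X.dist o a ≤ X.dist o b + X.dist b a := hX.dist_triangle
      rw [SimpleGraph.dist_comm (u := b) (v := a)] at h3
      rcases lt_trichotomy (X.dist o a) (X.dist o b) with h | h | h
      · exact (SimpleGraph.dist_eq_one_iff_adj.2 (hstep1 a b hab (by omega)).symm).le
      · have hrel : rel X o a b := by
          refine ⟨h, SimpleGraph.Walk.cons hab SimpleGraph.Walk.nil, fun w hw => ?_⟩
          rw [SimpleGraph.Walk.support_cons, SimpleGraph.Walk.support_nil, List.mem_cons,
            List.mem_singleton] at hw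
          rcases hw with hw | hw <;> rw [hw]
          exact h.le
        have he : F₂ a = F₂ b := Quotient.sound hrel
        rw [he, SimpleGraph.dist_self]
        exact Nat.zero_le 1
      · exact (SimpleGraph.dist_eq_one_iff_adj.2 (hstep1 b a hab.symm (by omega))).le
    have hwalk : ∀ (a b : V) (p : X.Walk a b), (PTG lv par).dist (F₂ a) (F₂ b) ≤ p.length := by
      intro a b p
      induction p with
      | nil => rw [SimpleGraph.dist_self]; exact Nat.zero_le _
      | @cons x y z hadj q ih =>
        rw [SimpleGraph.Walk.length_cons]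
        have h1 := hstep _ _ hadj
        have h2 : (PTG lv par).dist (F₂ x) (F₂ z) ≤
            (PTG lv par).dist (F₂ x) (F₂ y) + (PTG lv par).dist (F₂ y) (F₂ z) :=
          hT2.1.dist_triangle
        omega
    intro a b
    obtain ⟨p, hp⟩ := hX.exists_walk_length_eq_dist a b
    have := hwalk a b p
    omega

end GWQ
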