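import Pool.Agent.H73.GWQ.Stmts

/-! Board `gwq`, row UNI: decoding letters. -/

set_option autoImplicit false

namespace GWQ

section aux

variable {G V : Type*} [Group G] (D : QM G V)

theorem h55_step (g x : G) : D.d g (g * x) = D.d 1 x := by
  have h := D.inv g 1 x
  rwa [mul_one] at h

theorem h55_inv (g : G) : D.d 1 g⁻¹ = D.d 1 g := by
  have h := D.inv g 1 g⁻¹
  rw [mul_one, mul_inv_cancel] at h
  rw [← h, D.comm]

theorem h55_left (g u : G) : D.d u g⁻¹ = D.d 1 (g * u) := by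
  have h := D.inv g u g⁻¹
  rw [mul_inv_cancel] at h
  rw [← h, D.comm]

end aux

variable {ι G V : Type*} [Fintype ι] [Group G] (C : QCode ι G V)

theorem h55_uni1 (h4 : H4QStmt C.toQM) (g : G) (x y : ι) (hx : LB C g x) (hy : LB C g y) :
    x = y := by
  by_contra hne
  have s1 := C.sep x y hne
  have s2 := C.sep y x (Ne.symm hne)
  have h := h4 g 1 (g * C.c x) (g * C.c y)
  rw [C.inv, h55_step, h55_step, C.comm g 1] at h
  rw [C.comm (C.c y) (C.c x)] at s2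
  unfold LB QM.nm at hx hy
  have hK := C.K_pos
  have hd := C.hδ
  omega

theorem h55_uni2 (h4 : H4QStmt C.toQM) (x y : ι) (u : G) (hx : RB C x u) (hy : RB C y u) :
    x = y := by
  by_contra hne
  have s1 := C.sep' x y hne
  have s2 := C.sep' y x (Ne.symm hne)
  have h := h4 1 u (C.c x)⁻¹ (C.c y)⁻¹
  rw [h55_inv, h55_inv, h55_left C.toQM (C.c y) u, h55_left C.toQM (C.c x) u] at h
  rw [C.comm (C.c y)⁻¹ (C.c x)⁻¹] at s2
  unfold RB QM.nm at hx hy
  have hK := C.K_pos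
  have hd := C.hδ
  omega

theorem h55_uni3 (h4 : H4QStmt C.toQM) (gs : GSQStmt C) (m v : G) (t x : ι)
    (hl : ¬ LB C m t) (hr : ¬ RB C t v) (hx : LB C (m * C.c t ^ 5 * v) x) :
    C.d (C.c x) (v⁻¹ * ((C.c t) ^ 3)⁻¹) + C.d 1 (C.c x) ≤
      C.d 1 (v⁻¹ * ((C.c t) ^ 3)⁻¹) + 4 * C.K := by
  have g1 := gs m v t hl hr
  have hK := C.K_pos
  have hd := C.hδ
  have hlo := C.lo t
  have hhi := C.hi x
  have hra := C.ratio
  -- the elements
  obtain ⟨g, hg⟩ : ∃ g : G, g = m * C.c t ^ 5 * v := ⟨_, rfl⟩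
  obtain ⟨p, hp⟩ : ∃ p : G, p = v⁻¹ * ((C.c t) ^ 3)⁻¹ := ⟨_, rfl⟩
  have hgp : g * p = m * C.c t ^ 2 := by
    rw [hg, hp]
    group
  rw [← hg] at g1 hx
  rw [← hp]
  -- distances
  have e1 : C.d g⁻¹ p = C.d 1 (g * p) := by
    rw [C.comm, h55_left]
  have e2 : C.d g⁻¹ (C.c x) = C.d 1 (g * C.c x) := by
    rw [C.comm, h55_left]
  have e3 : C.d 1 g⁻¹ = C.d 1 g := h55_inv C.toQM g
  have e4 : C.d g (g * p) = C.d 1 p := h55_step C.toQM g p
  -- nm P
  have t1 : C.d 1 (g * p) ≤ C.d 1 (m * C.c t) + C.d 1 (C.c t) := by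
    have h1 := C.tri 1 (m * C.c t) (m * C.c t * C.c t)
    rw [h55_step] at h1
    rw [hgp]
    have h2 : m * C.c t ^ 2 = m * C.c t * C.c t := by
      rw [pow_two, mul_assoc]
    rw [h2]
    exact h1
  -- d (P, g)
  have t2 : C.d 1 p ≤ 2 * C.d 1 (C.c t) + C.d 1 (C.c t * v) := by
    have h0 : C.d 1 p = C.d 1 (C.c t * (C.c t * (C.c t * v))) := by
      have h1 : p⁻¹ = C.c t * (C.c t * (C.c t * v)) := by
        rw [hp]
        simp only [mul_inv_rev, inv_inv, pow_succ, pow_zero, one_mul, mul_assoc]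
      rw [← h1, h55_inv]
    have h1 := C.tri 1 (C.c t) (C.c t * (C.c t * (C.c t * v)))
    rw [h55_step] at h1
    have h2 := C.tri 1 (C.c t) (C.c t * (C.c t * v))
    rw [h55_step] at h2
    omega
  have t3 : C.d 1 g ≤ C.d 1 (g * p) + C.d 1 p := by
    have h1 := C.tri 1 (g * p) g
    rw [C.comm (g * p) g, e4] at h1
    exact h1
  have h := h4 1 g⁻¹ (C.c x) p
  rw [e1, e2, e3] at h
  unfold LB QM.nm at hx
  unfold QM.nm at g1
  omega

/-- row UNI -/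
theorem UNI (h4 : H4QStmt C.toQM) (gs : GSQStmt C) : UNIStmt C := by
  refine ⟨h55_uni1 C h4, h55_uni2 C h4, ?_⟩
  intro m m' v t x y hl hl' hr hx hy
  by_contra hne
  have a1 := h55_uni3 C h4 gs m v t x hl hr hx
  have a2 := h55_uni3 C h4 gs m' v t y hl' hr hy
  have s1 := C.sep x y hne
  have s2 := C.sep y x (Ne.symm hne)
  have hK := C.K_pos
  have hd := C.hδ
  have h := h4 1 (v⁻¹ * ((C.c t) ^ 3)⁻¹) (C.c x) (C.c y)
  rw [C.comm (v⁻¹ * ((C.c t) ^ 3)⁻¹) (C.c y), C.comm (v⁻¹ * ((C.c t) ^ 3)⁻¹) (C.c x)] at h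
  rw [C.comm (C.c y) (C.c x)] at s2
  omega

end GWQ
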